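import Pool.Agent.H.MP_5d9214_an.I

namespace Pool.Agent.Results.MP_5d9214_an.Yes

open MeasureTheory Filter Topology Pool.Agent.H.MP_5d9214_an

theorem result (K : Type) [RCLike K] (p : ENNReal) [Fact (1 ≤ p)] (h1 : 1 < p) (h2 : p ≠ ⊤) :
    ∃ (f : LK K p) (l : ℕ → ℝ) (F : ℕ → LK K p) (n : ℕ → ℕ), (∀ i, IsTransl (l i) f (F i)) ∧
      n 0 = 0 ∧ StrictMono n ∧ IsUFDD fun k => Submodule.span K (F '' Set.Ico (n k) (n (k + 1))) := by
  have hp : 1 < p.toReal := by simpa using (ENNReal.toReal_lt_toReal ENNReal.one_ne_top h2).2 h1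
  obtain ⟨f, L, C, C0, hL, hU, hD⟩ := main hp
  obtain ⟨l, n, n0, hn, hl⟩ := enum L hL
  let A : XX p →L[ℝ] LK K p := (RCLike.ofRealCLM (K := K)).compLpL p volume
  let B : (K →L[ℝ] ℝ) → LK K p →L[ℝ] XX p := fun T => T.compLpL p volume
  have a1 : ∀ u, ∀ᵐ x, A u x = (u x : K) := fun u => ContinuousLinearMap.coeFn_compLpL _ u
  have a2 : ∀ T u, ∀ᵐ x, B T u x = T (u x) := fun T u => ContinuousLinearMap.coeFn_compLpL _ u
  have a3 : ∀ y, A (B RCLike.reCLM y) + (RCLike.I : K) • A (B RCLike.imCLM y) = y := fun y =>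
    Lp.ext (by
      filter_upwards [Lp.coeFn_add (A (B RCLike.reCLM y)) ((RCLike.I : K) • A (B RCLike.imCLM y)),
        Lp.coeFn_smul (RCLike.I : K) (A (B RCLike.imCLM y)), a1 (B RCLike.reCLM y),
        a1 (B RCLike.imCLM y), a2 RCLike.reCLM y, a2 RCLike.imCLM y] with x e1 e2 e3 e4 e5 e6
      rw [e1, Pi.add_apply, e2, Pi.smul_apply, e3, e4, e5, e6, smul_eq_mul, mul_comm]
      exact RCLike.re_add_im _)
  have a4 : ∀ T (c : K) u, B T (c • A u) = T c • u := fun T c u => Lp.ext (by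
    filter_upwards [a2 T (c • A u), Lp.coeFn_smul c (A u), a1 u, Lp.coeFn_smul (T c) u]
      with x e1 e2 e3 e4
    rw [e1, e2, e4, Pi.smul_apply, Pi.smul_apply, e3, smul_eq_mul, mul_comm, ← RCLike.real_smul_eq_coe_mul,
      map_smul, smul_eq_mul, smul_eq_mul, mul_comm])
  have a5 : ∀ a, IsTransl a (A f) (A (tau p a f)) := fun a => by
    have mp := measurePreserving_sub_right (volume : Measure ℝ) a
    filter_upwards [mp.quasiMeasurePreserving.ae (a1 f),
      a1 (tau p a f), Lp.coeFn_compMeasurePreserving f mp] with x e2 e3 e4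
    exact (e3.trans (congrArg _ e4)).trans e2.symm
  have a6 : ∀ k, (fun i => A (tau p (l i) f)) '' Set.Ico (n k) (n (k + 1)) =
      A '' ((fun a => tau p a f) '' L k) := fun k => by
    simp only [← hl, Set.image_image]
  have a7 : ∀ s : Set (XX p), ∀ u ∈ Submodule.span ℝ s, A u ∈ Submodule.span K (A '' s) :=
    fun s u hu => Submodule.span_le_restrictScalars ℝ K _
      (Submodule.apply_mem_span_image_of_mem_span (A : XX p →ₗ[ℝ] LK K p) hu)
  have a8 : ∀ s : Set (XX p), ∀ y ∈ Submodule.span K (A '' s), ∀ (c : K) T,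
      B T (c • y) ∈ Submodule.span ℝ s := fun s y hy => by
    induction hy using Submodule.span_induction with
    | mem y hy =>
      obtain ⟨u, hu, rfl⟩ := hy
      exact fun c T => a4 T c u ▸ Submodule.smul_mem _ _ (Submodule.subset_span hu)
    | zero => simp
    | add y z _ _ h h' => exact fun c T => by rw [smul_add, map_add]; exact add_mem (h c T) (h' c T)
    | smul a y _ h => exact fun c T => by rw [smul_smul]; exact h _ T
  have hf : ∀ k, FiniteDimensional ℝ (Submodule.span ℝ ((fun a => tau p a f) '' L k)) := fun k =>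
    FiniteDimensional.span_of_finite _ ((L k).finite_toSet.image _)
  refine ⟨A f, l, _, n, fun i => a5 (l i), n0, hn, ?_⟩
  simp only [a6]
  have ex : ∀ x : LK K p, ∃ y : ℕ → LK K p,
      (∀ k, y k ∈ Submodule.span K (A '' ((fun a => tau p a f) '' L k))) ∧ HasSum y x := fun x => by
    obtain ⟨u, h3, h4⟩ := hU.ex C0 hf hD (B RCLike.reCLM x)
    obtain ⟨v, h5, h6⟩ := hU.ex C0 hf hD (B RCLike.imCLM x)
    exact ⟨_, fun k => add_mem (a7 _ _ (h3 k)) (Submodule.smul_mem _ _ (a7 _ _ (h5 k))),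
      a3 x ▸ (A.hasSum h4).add ((A.hasSum h6).const_smul (RCLike.I : K))⟩
  have un : ∀ (x : LK K p) (y z : ℕ → LK K p),
      (∀ k, y k ∈ Submodule.span K (A '' ((fun a => tau p a f) '' L k))) →
      (∀ k, z k ∈ Submodule.span K (A '' ((fun a => tau p a f) '' L k))) →
      Tendsto (fun N => ∑ k ∈ Finset.range N, y k) atTop (𝓝 x) →
      Tendsto (fun N => ∑ k ∈ Finset.range N, z k) atTop (𝓝 x) → y = z := fun x y z h3 h4 h5 h6 => by
    have h7 : ∀ T k, B T (y k - z k) = 0 := fun T => hU.uniq (fun k => by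
      simpa using a8 _ _ (sub_mem (h3 k) (h4 k)) 1 T) (by
        simpa [Function.comp_def, ← Finset.sum_sub_distrib] using
          ((B T).continuous.tendsto _).comp (h5.sub h6))
    exact funext fun k => sub_eq_zero.1 (by rw [← a3 (y k - z k), h7, h7]; simp)
  refine ⟨⟨fun k => FiniteDimensional.span_of_finite _ (((L k).finite_toSet.image _).image _),
    fun x => ?_⟩, fun x y h3 h4 π => ?_⟩ <;> obtain ⟨z, h5, h6⟩ := ex x
  · exact ⟨z, ⟨h5, h6.tendsto_sum_nat⟩, fun y hy => un x y z hy.1 h5 hy.2 h6.tendsto_sum_nat⟩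
  · rw [un x y z h3 h5 h4 h6.tendsto_sum_nat]
    exact (π.hasSum_iff.2 h6).tendsto_sum_nat

end Pool.Agent.Results.MP_5d9214_an.Yes
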